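import Pool.Agent.V7.ST.Step
import Pool.Agent.V8.Num.Res

/-!
# V8: exactness on the level `j` from exactness on the level `j + 1`, the closing
-/

set_option autoImplicit false

namespace Pool.Agent.V8

open Finset Pool.Agent.H51.TB Pool.Agent.V7 Pool.Agent.V7.ST

variable {K : ℕ}

/-- STEP, from F1, the sizes, DH and NUM. -/
theorem stepB_of (B : Finset (Fin K → ℕ)) (M c j : ℕ) (hj : j + 2 ≤ M) (hc : 1 ≤ c)
    (hw : IsW c K (bJ B c))
    (f1 : ∀ n : ℕ, j * c + K < n → ∀ s : Multiset Kd, (∀ k ∈ s, k.Ok M j) →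
      vdW M (bJ B c) j n s ≤ gM (LSB B M c n j) s)
    (sz : ∀ n : ℕ, j * c + K < n →
      (LSB B M c n j).size (Kd.ord M (range j)) ≤ wtW M (bJ B c) n (Kd.ord M (range j)))
    (dh : ∀ (n : ℕ) (sL sO : Multiset Kd) (y a : ℕ), (j + 1) * c + K ≤ n →
      (∀ k ∈ sL, k.Ok M j) →
      gM (LSB B M c (n - c) j) (sL + Multiset.replicate (y + a) Kd.sm) = 0 →
      gM (LSB B M c n j) (sL + sO + Multiset.replicate y (Kd.ord M ∅) +
        Multiset.replicate a Kd.sm) ≤
      gM (LSB B M c n (j + 1)) (sL.map (Kd.add j) + sO + Multiset.replicate y (Kd.sw j ∅)))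
    (num : ∀ e' : ℝ, 0 < e' → ∃ e₀ : ℝ, 0 < e₀ ∧ ∀ e : ℝ, 0 < e → e ≤ e₀ → ∀ X : ℕ, ∃ n₁ : ℕ,
      ∀ n : ℕ, n₁ ≤ n → ∀ s : Multiset Kd, Cls0 M c j n (e + 1 / (n : ℝ)) (fun τ => s.count τ) →
      -(bJ B c (M - 1) j n : ℤ) ≤ vdW M (bJ B c) j n s →
      vdW M (bJ B c) j n s < (X + 1) * bJ B c (M - 1) j n →
      ∀ x, x ≤ X → ∃ sL sO : Multiset Kd,
        s = sL + sO + Multiset.replicate (2 * bJ B c (M - 1) j (n - c)) (Kd.ord M ∅) ∧
        Cls0 M c j (n - c) (e + 1 / ((n - c : ℕ) : ℝ)) (fun τ => sL.count τ) ∧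
        (x : ℤ) * bJ B c (M - 1) j (n - c) ≤ vdW M (bJ B c) j (n - c) sL ∧
        vdW M (bJ B c) j (n - c) sL < (x + 1) * bJ B c (M - 1) j (n - c) ∧
        ∀ y, y ≤ 2 * bJ B c (M - 1) j (n - c) → Cls M c (j + 1) n e' (fun τ =>
          (sL.map (Kd.add j) +
            (sO + Multiset.replicate (2 * bJ B c (M - 1) j (n - c) - y) (Kd.ord M ∅)) +
            Multiset.replicate y (Kd.sw j ∅)).count τ))
    (hO : OJB B M c j) (hP : PROPB B M c (j + 1)) : PROPB B M c j := by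
  obtain ⟨e', he', n₂, hP⟩ := hP
  obtain ⟨eO, heO, n₃, hO⟩ := hO
  obtain ⟨e₀, he₀, hnum⟩ := num e' he'
  obtain ⟨n₄, hn₄⟩ := exists_nat_gt (2 / eO)
  set e : ℝ := min e₀ (eO / 2) with he
  have hepos : 0 < e := lt_min he₀ (by positivity)
  have hrad : ∀ n : ℕ, n₄ + 1 ≤ n → e + 1 / (n : ℝ) ≤ eO := by
    intro n hn
    have h1 : (2 / eO : ℝ) < n := by
      refine hn₄.trans ?_
      exact_mod_cast hn
    have h2 : (0 : ℝ) < n := lt_trans (by positivity) h1
    have h3 : 1 / (n : ℝ) ≤ eO / 2 := by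
      rw [div_le_iff₀ h2]
      rw [div_lt_iff₀ heO] at h1
      linarith
    have h4 : e ≤ eO / 2 := min_le_right _ _
    linarith
  set n₀ : ℕ := n₂ + n₃ + n₄ + 1 + ((j + 2) * c + K + 1) with hn₀
  have hjc' : (j + 1) * c = j * c + c := by ring
  have hjc'' : (j + 2) * c = j * c + c + c := by ring
  have hjc0 : 0 ≤ j * c := Nat.zero_le _
  have htop : ∀ n, wtW M (bJ B c) n (Kd.ord M (range j)) = bJ B c (M - 1) j n := by
    intro n
    show bJ B c (M - 1) (range j).card n = _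
    rw [card_range]
  obtain ⟨n₅, h⟩ := step_abs c hc (fun n s => gM (LSB B M c n j) s)
    (fun n s => gM (LSB B M c n (j + 1)) s) (fun n s => vdW M (bJ B c) j n s)
    (fun n s => vdW M (bJ B c) (j + 1) n s) (fun n => bJ B c (M - 1) j n)
    (fun n s => Cls0 M c j n (e + 1 / (n : ℝ)) fun τ => s.count τ)
    (fun n s => Cls M c (j + 1) n e' fun τ => s.count τ) Kd.sm (Kd.ord M ∅) (Kd.sw j ∅)
    (Kd.ord M (range j)) (Kd.add j) n₀
    (fun n hn => hw.pos (M - 1) j n hc (by omega) (by omega))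
    (fun n hn => by
      have h1 := hw.sub (M - 1) (j := j) (n := n) (by omega)
      omega)
    (fun n => ⟨_, fun s => gM_add_le (LSB B M c n j) s⟩)
    (fun n s hn hs => f1 n (by omega) s hs.ok')
    (fun n s a _ => gM_add_sm M (blk c n) (ExB B c n (2 * M - 1) j) s a)
    (fun n s => gM_cons_le (LSB B M c n j) s _)
    (fun n s hn => by
      have h1 := gM_le_cons (LSB B M c n j) s (Kd.ord M (range j))
      have h2 := sz n (by omega)
      rw [htop] at h2
      exact h1.trans (Nat.add_le_add_left h2 _))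
    (fun n s => gM_submod (LSB B M c n j) s _ _)
    (fun n s _ => by
      unfold vdW
      rw [Multiset.map_cons, Multiset.sum_cons, htop]
      push_cast
      ring)
    (fun n s => Cls0.cons_top (by omega))
    (fun n s hn hs hns => hO n (by omega) s (hs.mono (hrad n (by omega))) hns)
    (fun n sL sO y a hn hs h0 => dh n sL sO y a (by omega)
      (fun k hk => hs.ok' k (Multiset.mem_add.2 (Or.inl (Multiset.mem_add.2 (Or.inl hk))))) h0)
    (fun n s hn hs => hP n (by omega) s hs)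
    (fun n sL sO y hn hs => vd_resW M c j n (by omega) hc (bJ B c) hw (by omega) (by omega) sL sO y
      (fun k hk => mem_kds.2
        (hs.ok' k (Multiset.mem_add.2 (Or.inl (Multiset.mem_add.2 (Or.inl hk))))))
      (fun k hk => mem_kds.2
        (hs.ok' k (Multiset.mem_add.2 (Or.inl (Multiset.mem_add.2 (Or.inr hk)))))))
    (hnum e hepos (min_le_left _ _))
  refine ⟨e, hepos, n₅, fun n hn s hs => h n hn s (hs.toCls0.mono ?_)⟩
  have h1 : (0 : ℝ) ≤ 1 / (n : ℝ) := by positivity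
  linarith

end Pool.Agent.V8
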